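import Mathlib
import Pool.Agent.Run7.h28.BV.CurT2

/-!
# Hyperelliptic curves over all number fields: integral points with sparse abscissa

The conjecture of Hall, Lang and Vojta says that the height of an integral point of `y ^ 2 = f (x)`,
`f` of degree `d ≥ 3` without repeated roots, is at most linear in the height of `f`.  We prove this,
with constants depending only on `d`, `k`, `S` and on a bound for the discriminant of the number field,
for all the points whose abscissa `x` is a sum of `k` `S`-units with coefficients of small height and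
whose ordinate `y` is `v`-adically near a multiple of small height of an `S`-unit `z`, at one place
`v`, for example near the leading term of the square root of `f (x)`.  The curve is any hyperelliptic
curve over any number field `L` of bounded discriminant, `y` is any `S`-integer of `L`, and the
`S`-units are those of `L`; for integral points over `ℤ` and monic `f` one can take for example all `x`
which are sums of `k` Fibonacci numbers, the first of which dominates.
-/

open Height NumberField IsDedekindDomain

namespace Pool.Agent.Results.MP_d88658_nt.AllFieldsSparseAbscissa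

/-- The places of a number field, infinite or finite. -/
abbrev Place (K : Type) [Field K] [NumberField K] : Type :=
  InfinitePlace K ⊕ HeightOneSpectrum (𝓞 K)

/-- The absolute value of a place, as normalised in Mathlib. -/
noncomputable def absv {K : Type} [Field K] [NumberField K] : Place K → AbsoluteValue K ℝ
  | Sum.inl w => w.1
  | Sum.inr v => (FinitePlace.mk v).1

/-- The finite places of `L` above the positive integers in `S`. -/
def primesAbove (L : Type) [Field L] [NumberField L] (S : Finset ℕ) :
    Set (HeightOneSpectrum (𝓞 L)) :=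
  {w | ∃ p ∈ S, p ≠ 0 ∧ ((p : ℕ) : 𝓞 L) ∈ w.asIdeal}

/-- The infinite places of `L` and the finite ones above `S`. -/
def placesAbove (L : Type) [Field L] [NumberField L] (S : Finset ℕ) : Set (Place L) :=
  {v | ∀ w, v = Sum.inr w → w ∈ primesAbove L S}

section

variable {K : Type} [Field K] [NumberField K]

/-- `x` is a sum of `k` elements of `Γ` with coefficients in `K` of height at most `M`. -/
def IsSparse (Γ : Subgroup Kˣ) (k : ℕ) (M : ℝ) (x : K) : Prop :=
  ∃ (a : Fin k → K) (u : Fin k → Kˣ), (∀ r, mulHeight₁ (a r) ≤ M) ∧ (∀ r, u r ∈ Γ) ∧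
    x = ∑ r, a r * (u r : K)

/-- `y` is `v`-adically near `e z` or `- e z`, where `z` is in `Γ` and `e` has height at most `M`. -/
def NearUnit (Γ : Subgroup Kˣ) (v : Place K) (B δ M h : ℝ) (y : K) : Prop :=
  ∃ (z : Kˣ) (e : K), z ∈ Γ ∧ e ≠ 0 ∧ mulHeight₁ e ≤ M ∧ mulHeight₁ (z : K) ≤ M * h ^ B ∧
    absv v ((y / z) ^ 2 - e ^ 2) ≤ M * h ^ (-δ)

end

lemma absv_eq {K : Type} [Field K] [NumberField K] (v : Place K) :
    absv v = Pool.Agent.W180.OP.av v := by
  cases v with
  | inl w => rfl
  | inr w => rfl

lemma finite_placesAbove (L : Type) [Field L] [NumberField L] (S : Finset ℕ) :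
    (placesAbove L S).Finite := by
  have h1 : placesAbove L S ⊆ Set.range (Sum.inl : InfinitePlace L → Place L) ∪
      Sum.inr '' primesAbove L S := by
    rintro (w | w) hw
    · exact Or.inl ⟨w, rfl⟩
    · exact Or.inr ⟨w, hw w rfl, rfl⟩
  exact ((Set.finite_range _).union
    ((Pool.Agent.Run7.h28.BV.finite_prAbove L S).image _)).subset h1

/-- Let `d ≥ 3`, `k`, `D` be natural numbers, `B` and `δ > 0` real numbers and `S` a finite set of
primes.  There are constants `C₁`, `C₂` such that for all number fields `L ⊆ ℂ` with `|disc L| ≤ D`,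
all places `v` of `L` which are infinite or above `S`, all `M ≥ 1`, all `f ∈ L[X]` of degree `d` without
repeated roots and with coefficients of height at most `M`, and all points `(x, y)` over `L` of the
curve `y ^ 2 = f (x)` for which
* `x` is a sum of `k` `S`-units of `L` with coefficients in `L` of height at most `M`,
* `b y` is `S`-integral for some `b ≠ 0` in `L` of height at most `M`,
* `(y / z) ^ 2 - e ^ 2` has `v`-adic absolute value at most `M H (x) ^ (-δ)` for some `S`-unit `z` with
  `H (z) ≤ M H (x) ^ B` and some `e ≠ 0` of height at most `M`,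
one has `h (x) ≤ C₁ log M + C₂`. -/
theorem result (d k D : ℕ) (hd : 3 ≤ d) (B δ : ℝ) (hδ : 0 < δ) (S : Finset ℕ) :
    ∃ C₁ C₂ : ℝ, ∀ (L : IntermediateField ℚ ℂ) [NumberField L], |discr L| ≤ D →
      ∀ v ∈ placesAbove L S, ∀ (M : ℝ) (f : Polynomial L) (x y b : L), 1 ≤ M →
        f.natDegree = d → f.Separable → (∀ i, mulHeight₁ (f.coeff i) ≤ M) → y ^ 2 = f.eval x →
        IsSparse ((primesAbove L S).unit L) k M x →
        b ≠ 0 → mulHeight₁ b ≤ M →
        (∀ w, w ∉ primesAbove L S → absv (Sum.inr w : Place L) (b * y) ≤ 1) →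
        NearUnit ((primesAbove L S).unit L) v B δ M (mulHeight₁ x) y →
        logHeight₁ x ≤ C₁ * Real.log M + C₂ := by
  obtain ⟨C, hC, h⟩ := Pool.Agent.Run7.h28.BV.uniform_disc D (fun L _ => Place L)
    (fun L _ => placesAbove L S) (fun L _ => finite_placesAbove L S)
    (fun L _ v C => ∀ (M : ℝ) (f : Polynomial L) (x y b : L), 1 ≤ M →
        f.natDegree = d → f.Separable → (∀ i, mulHeight₁ (f.coeff i) ≤ M) → y ^ 2 = f.eval x →
        IsSparse ((primesAbove L S).unit L) k M x →
        b ≠ 0 → mulHeight₁ b ≤ M →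
        (∀ w, w ∉ primesAbove L S → absv (Sum.inr w : Place L) (b * y) ≤ 1) →
        NearUnit ((primesAbove L S).unit L) v B δ M (mulHeight₁ x) y →
        mulHeight₁ x ≤ (C * M) ^ C)
    (fun L _ v C C' h1 h2 h3 h4 M f x y b a1 a2 a3 a4 a5 a6 a7 a8 a9 a10 =>
      Pool.Agent.Run7.h28.BV.bound_mono h1 h2 h3 a1 (h4 M f x y b a1 a2 a3 a4 a5 a6 a7 a8 a9 a10))
    (fun L _ v _ => by
      have hfin := Pool.Agent.Run7.h28.BV.finite_prAbove L S
      obtain ⟨C, hC, h⟩ := Pool.Agent.Run7.h28.BV.hyperell d hd k B δ hδ L
        ((primesAbove L S).unit L) (Pool.Agent.H39R3.Tor.sunit_fg L _ hfin) v hfin.toFinset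
      refine ⟨C, by linarith, fun M f x y b a1 a2 a3 a4 a5 a6 a7 a8 a9 ⟨z, e, b1, b2, b3, b4, b5⟩
        => h M f x y b a1 a2 a3 a4 a5 a6 a7 a8 (fun w hw => ?_) ⟨z, e, b1, b2, b3, b4, ?_⟩⟩
      · have h8 := a9 w (fun h9 => hw (hfin.mem_toFinset.2 h9))
        rw [absv_eq] at h8
        exact h8
      · rw [← a5, ← div_pow]
        rw [absv_eq] at b5
        exact b5)
  refine ⟨C, C * Real.log C, fun L _ hL v hv M f x y b a1 a2 a3 a4 a5 a6 a7 a8 a9 a10 => ?_⟩
  have h1 := h L hL v hv M f x y b a1 a2 a3 a4 a5 a6 a7 a8 a9 a10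
  have h2 := Real.log_le_log (mulHeight₁_pos x) h1
  rw [Real.log_rpow (by positivity), Real.log_mul (by positivity) (by positivity)] at h2
  have h3 : Real.log (mulHeight₁ x) = logHeight₁ x := rfl
  rw [h3] at h2
  linarith

end Pool.Agent.Results.MP_d88658_nt.AllFieldsSparseAbscissa
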