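import Mathlib
import Pool.Agent.Run7.h69.PB5

/-!
# The number of the integral points on the curves `y² = φ(x) (φ(x) - a f(t)) (φ(x) - b f(t))`, on average over `t`

Let `a`, `b` be distinct nonzero integers, `φ` a nonconstant polynomial and `f` any polynomial with
integer coefficients. For an integer `t` with `f(t) ≠ 0` consider the curve
`y² = F_t(x) = φ(x) (φ(x) - a f(t)) (φ(x) - b f(t))` whose degree is three times the degree of `φ`. The
height of the polynomial `F_t` is at most a constant times `log H` for the `t` considered below, so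
that the conjecture of Hall, Lang and Vojta says that all integral points satisfy
`log |x| ≤ C log H`.

Theorem. For all `k`, `δ > 0`, `ε > 0` there is `C` such that for all `Z ≥ 1` the average of the `k`-th
power of the number of the integral points with `|x| ≤ Z` over the integers `t` of an interval
`(x₀, x₀ + H]`, `H ≥ |x₀| ^ ε`, `H ≥ 2`, for which the squarefree part of `f(t)` is at least `H ^ δ`, is
at most `C (log (2 + log Z / log H)) ^ k`. So the average number of the integral points with
`|x| ≤ H ^ A` is bounded for every `A`, and beyond the range of the conjecture the average number of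
the integral points grows at most like the logarithm of the logarithm of the height.

The points of height at most `C log H` are treated by the cosets of `2 ^ m E(ℚ)`; for the large points
it is shown that two integral points `P`, `Q` of the elliptic curve satisfy `h(P - Q) ≥ min(h(P), h(Q)) -
O(log |f(t)|)`, so that the number of the integral points with `T ≤ log |x| ≤ 2 T` is at most
`N * 64 ^ rank` for all `T ≥ C log H`; the average over `t` is taken by means of the moments of
`2 ^ rank`. The parallelogram law for the height is uniform over all twists.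
-/

namespace Pool.Agent.Results.MP_d88658_nt.AverageNumberInFamilies

open Finset Polynomial

/-- the integral points of `y ^ 2 = φ(x) (φ(x) - a d) (φ(x) - b d)` with `|x| ≤ Z` -/
def points (φ : ℤ[X]) (a b d : ℤ) (Z : ℝ) : Set (ℤ × ℤ) :=
  {p | p.2 ^ 2 = φ.eval p.1 * (φ.eval p.1 - a * d) * (φ.eval p.1 - b * d) ∧ |(p.1 : ℝ)| ≤ Z}

open Classical in
/-- All moments of the number of the integral points with `|x| ≤ Z` on the curves
`y ^ 2 = φ(x) (φ(x) - a f(t)) (φ(x) - b f(t))` over the `t` in `(x, x + H]` for which the squarefree part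
of `f(t)` is at least `H ^ δ`. -/
theorem result (a b : ℤ) (ha : a ≠ 0) (hb : b ≠ 0) (hab : a ≠ b) (φ : ℤ[X])
    (hφ : 0 < φ.natDegree) (f : ℤ[X]) (k : ℕ) (δ ε : ℝ) (hδ : 0 < δ) (hε : 0 < ε) :
    ∃ C : ℝ, ∀ (x : ℤ) (H : ℕ), 2 ≤ H → |(x : ℝ)| ^ ε ≤ H → ∀ Z : ℝ, 1 ≤ Z →
      ∑ t ∈ (Ioc x (x + H)).filter (fun t => f.eval t ≠ 0 ∧
          ∀ d s : ℤ, f.eval t = d * s ^ 2 → (H : ℝ) ^ δ ≤ |(d : ℝ)|),
        ((points φ a b (f.eval t) Z).ncard : ℝ) ^ k ≤
          C * H * Real.log (2 + Real.log Z / Real.log H) ^ k := by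
  set M : ℕ := ⌈1 / ε⌉₊ with hM
  obtain ⟨C, hC⟩ := Run7.h69.PA.imoments a b ha hb hab φ hφ f k M δ hδ
  refine ⟨C, fun x H hH hx Z hZ => ?_⟩
  have hHr : (1 : ℝ) ≤ H := by
    have : 1 ≤ H := by omega
    exact_mod_cast this
  have h1 : x.natAbs ≤ H ^ M := by
    have h2 : |(x : ℝ)| ≤ (H : ℝ) ^ (M : ℝ) := by
      calc |(x : ℝ)| = (|(x : ℝ)| ^ ε) ^ (1 / ε) := by
            rw [← Real.rpow_mul (abs_nonneg _), mul_one_div_cancel hε.ne', Real.rpow_one]
        _ ≤ (H : ℝ) ^ (1 / ε) := Real.rpow_le_rpow (by positivity) hx (by positivity)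
        _ ≤ (H : ℝ) ^ (M : ℝ) := Real.rpow_le_rpow_of_exponent_le hHr (Nat.le_ceil _)
    rw [Real.rpow_natCast] at h2
    have h3 : ((x.natAbs : ℕ) : ℝ) = |(x : ℝ)| := by
      rw [Nat.cast_natAbs, Int.cast_abs]
    have h4 : ((x.natAbs : ℕ) : ℝ) ≤ ((H ^ M : ℕ) : ℝ) := by
      rw [h3]
      push_cast
      exact h2
    exact_mod_cast h4
  exact hC x H Z hH h1 hZ

end Pool.Agent.Results.MP_d88658_nt.AverageNumberInFamilies
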