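import Mathlib
import Pool.Agent.Run7.h720.Hyp2

set_option autoImplicit false

/-!
# Integral points of hyperelliptic curves: short abscissas, and ordinates with a short factor

Let `K` be a number field, `T` a finite set of primes, and let `Γ` be a finitely generated subgroup of the
multiplicative group of `K`. We consider all equations `y² = f(x)`, `f` over `K` of degree `d` without
multiple roots, and their solutions `(x, y)` in `T`-integers of `K` such that `x` is short or a quotient
of two short numbers, and `y = y₁ * y₂`, where `y₁` is short and `y₂` is arbitrary (short: a sum of `r`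
terms `c * γ` with `γ` in `Γ` and `c` of height at most `B * H(x) ^ δ`). We prove
`(d / 2 - 1 - ε) h(x) ≤ N_T(y₂) + C (1 + h(f))` with `C` which does not depend on `f`. If `N_T(y₂)` is at
most `(d / 2 - 1 - 2 ε) h(x)`, we have `h(x) ≤ C (1 + h(f))`, the bound conjectured by Hall and Lang.
-/

namespace Pool.Agent.Results.MP_d88658_nt.ShortAbscissaShortFactor

open NumberField IsDedekindDomain Height Polynomial

variable {K : Type} [Field K] [NumberField K]

/-- The absolute logarithmic Weil height of `x`. -/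
noncomputable def h (x : K) : ℝ := logHeight₁ x / Module.finrank ℚ K

/-- The height of `f`: the largest logarithmic height of a coefficient. -/
noncomputable def polyHeight (f : K[X]) : ℝ := ⨆ j : Fin (f.natDegree + 1), h (f.coeff j)

/-- `ord_v (z)` times the logarithm of the norm of the prime `v`. (Mathlib's absolute value at `v` of
`z` is the norm of `v` to the power `-ord_v (z)`.) -/
noncomputable def ord (v : HeightOneSpectrum (𝓞 K)) (z : K) : ℝ := -Real.log (FinitePlace.mk v z)

/-- `z` is integral at all primes outside `T`. -/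
def IntegralOutside (T : Set (HeightOneSpectrum (𝓞 K))) (z : K) : Prop :=
  ∀ v ∉ T, FinitePlace.mk v z ≤ 1

/-- The absolute counting function of the zeros of `z` outside `T`: the sum of the `ord v z` over the
primes `v` outside `T`, divided by the degree of `K`. If `K` is the field of rational numbers, `T` is
empty and `z` is a nonzero integer, it is `log |z|`. -/
noncomputable def counting (T : Set (HeightOneSpectrum (𝓞 K))) (z : K) : ℝ :=
  (∑ᶠ (v : HeightOneSpectrum (𝓞 K)) (_ : v ∉ T), ord v z) / Module.finrank ℚ K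

/-- `z` is a sum of `r` terms `c * γ` with `γ` in `Γ` and `c` of (multiplicative, relative) height at
most `R`. -/
def IsShort (Γ : Subgroup Kˣ) (r : ℕ) (R : ℝ) (z : K) : Prop :=
  ∃ (c : Fin r → K) (γ : Fin r → Kˣ), (∀ j, γ j ∈ Γ) ∧ (∀ j, mulHeight₁ (c j) ≤ R) ∧
    z = ∑ j, c j * (γ j : K)

/-! ### Auxiliary lemmas -/

theorem cnt_sq (T : Set (HeightOneSpectrum (𝓞 K))) (z : K) (hz : z ≠ 0) :
    Pool.Agent.Run7.h720.cnt T (z ^ 2) = 2 * Pool.Agent.Run7.h720.cnt T z := by
  classical
  unfold Pool.Agent.Run7.h720.cnt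
  rw [mul_finsum']
  · refine finsum_congr fun v => ?_
    rw [finsum_eq_if, finsum_eq_if, map_pow, Real.log_pow]
    split_ifs <;> push_cast <;> ring
  · refine (Pool.Agent.Run7.h720.log_fv_support z hz).subset fun v hv h => hv ?_
    have h2 : Real.log (Pool.Agent.W180.OP.fv v z) = 0 := h
    show ∑ᶠ (_ : v ∉ T), -Real.log (Pool.Agent.W180.OP.fv v z) = 0
    rw [h2, neg_zero]
    exact finsum_zero

theorem npole_zero (T : Set (HeightOneSpectrum (𝓞 K))) (x : K) (hx : IntegralOutside T x) :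
    Pool.Agent.Run7.h720.npole T x = 0 := by
  classical
  unfold Pool.Agent.Run7.h720.npole
  rw [← finsum_zero (α := HeightOneSpectrum (𝓞 K))]
  refine finsum_congr fun v => ?_
  rw [finsum_eq_if]
  by_cases hv : v ∈ T
  · rw [if_neg (not_not.2 hv)]
  · have h1 : Pool.Agent.W180.OP.fv v x ≤ 1 := hx v hv
    rw [if_pos hv, max_eq_right h1, Real.log_one]

/-- **Main theorem.** Let `K` be a number field, `T` a finite set of primes of `K`, `Γ` a finitely
generated subgroup of the multiplicative group of `K`, `d`, `r` and `M` natural numbers, `B` and `ε > 0`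
real numbers. There are `δ > 0` and `C` such that the following holds for all polynomials `f` over `K` of
degree `d` without multiple roots and all points `(x, y)` over `K` of the curve `y² = f(x)`, `y ≠ 0`, `x`
and `y` integral outside `T`, such that `x` is a quotient of sums `p`, `q` of `r` terms with coefficients
of height at most `B H(x) ^ δ`:
* if `y = y₁ * y₂`, `y₁` and `y₂` integral outside `T` and `y₁` short (a sum of `r` such terms), then
  `(d / 2 - 1 - ε) h(x) ≤ N_T(y₂) + C (1 + h(f))`; so `h(x) ≤ C (1 + h(f))` if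
  `N_T(y₂) ≤ (d / 2 - 1 - 2 ε) h(x)`;
* if `y²` divides `ρ ^ M * τ` outside `T`, where `ρ` and `τ` are nonzero and integral outside `T` and `ρ`
  is short, then `(d - 1 - ε) h(x) ≤ N_T(ρ) + N_T(τ) + C (1 + h(f))`. -/
theorem result (K : Type) [Field K] [NumberField K] (T : Set (HeightOneSpectrum (𝓞 K)))
    (hT : T.Finite) (Γ : Subgroup Kˣ) (hΓ : Γ.FG) (d r M : ℕ) (B ε : ℝ) (hε : 0 < ε) :
    ∃ δ C : ℝ, 0 < δ ∧ ∀ (f : K[X]) (x y p q : K), f.natDegree = d → f.Separable →
      y ^ 2 = f.eval x → y ≠ 0 → IntegralOutside T x → IntegralOutside T y → q ≠ 0 → x = p / q →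
      IsShort Γ r (B * mulHeight₁ x ^ δ) p → IsShort Γ r (B * mulHeight₁ x ^ δ) q →
      (∀ y₁ y₂ : K, y = y₁ * y₂ → IntegralOutside T y₁ → IntegralOutside T y₂ →
        IsShort Γ r (B * mulHeight₁ x ^ δ) y₁ →
        ((d : ℝ) / 2 - 1 - ε) * h x ≤ counting T y₂ + C * (1 + polyHeight f) ∧
        (counting T y₂ ≤ ((d : ℝ) / 2 - 1 - 2 * ε) * h x → h x ≤ C * (1 + polyHeight f))) ∧
      (∀ ρ τ : K, ρ ≠ 0 → τ ≠ 0 → IntegralOutside T ρ → IntegralOutside T τ →
        IsShort Γ r (B * mulHeight₁ x ^ δ) ρ →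
        (∀ v ∉ T, 2 * ord v y ≤ M * ord v ρ + ord v τ) →
        ((d : ℝ) - 1 - ε) * h x ≤ counting T ρ + counting T τ + C * (1 + polyHeight f)) := by
  classical
  obtain ⟨δ, C, hδ, hC, hmain⟩ := Pool.Agent.Run7.h720.hyp_two K Γ hΓ T hT d r (M + 2) B ε hε
  obtain ⟨n, hn⟩ : ∃ n : ℝ, n = (Module.finrank ℚ K : ℝ) := ⟨_, rfl⟩
  have hn0 : 0 < n := by
    rw [hn]
    exact_mod_cast Module.finrank_pos
  have hn1 : 1 ≤ n := by
    rw [hn]
    exact_mod_cast Nat.one_le_iff_ne_zero.2 (Module.finrank_pos (R := ℚ) (M := K)).ne'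
  obtain ⟨C₁, hC₁⟩ : ∃ C₁ : ℝ, C₁ = C * (d + 1) := ⟨_, rfl⟩
  have hC₁0 : 0 ≤ C₁ := by
    rw [hC₁]
    positivity
  refine ⟨δ, C₁ + C₁ / ε, hδ, ?_⟩
  intro f x y p q hfd hsep hxy hy0 hxT hyT hq hxpq hsp hsq
  have hfx : f.eval (p / q) ≠ 0 := by
    rw [← hxpq, ← hxy]
    exact pow_ne_zero 2 hy0
  have hfv : ∀ v : HeightOneSpectrum (𝓞 K), Pool.Agent.W180.OP.fv v (f.eval (p / q)) =
      Pool.Agent.W180.OP.fv v y ^ 2 := by
    intro v
    rw [← hxpq, ← hxy, map_pow]
  have hmax : ∀ v ∉ T, max (Pool.Agent.W180.OP.fv v (p / q)) 1 = 1 := by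
    intro v hv
    rw [← hxpq]
    exact max_eq_right (hxT v hv)
  -- the heights
  have hh : logHeight₁ x = n * h x := by
    unfold h
    rw [← hn, mul_div_cancel₀ _ hn0.ne']
  have hcnt : ∀ z : K, Pool.Agent.Run7.h720.cnt T z = n * counting T z := by
    intro z
    unfold counting
    rw [← hn, mul_div_cancel₀ _ hn0.ne']
    rfl
  have hpoly0 : ∀ j : Fin (d + 1), h (f.coeff j) ≤ polyHeight f := fun j =>
    le_ciSup (f := fun j : Fin (f.natDegree + 1) => h (f.coeff j)) (Set.finite_range _).bddAbove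
      ⟨j, by rw [hfd]; exact j.2⟩
  have hP0 : 0 ≤ polyHeight f :=
    le_trans (div_nonneg (zero_le_logHeight₁ _) (Nat.cast_nonneg _)) (hpoly0 0)
  have hS : C * (1 + ∑ j : Fin (d + 1), logHeight₁ (f.coeff j)) ≤
      n * (C₁ * (1 + polyHeight f)) := by
    have h1 : ∑ j : Fin (d + 1), logHeight₁ (f.coeff j) ≤ (d + 1) * (n * polyHeight f) := by
      have h2 : ∑ j : Fin (d + 1), logHeight₁ (f.coeff j) ≤
          ∑ _j : Fin (d + 1), n * polyHeight f := by
        refine Finset.sum_le_sum fun j _ => ?_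
        have h3 : logHeight₁ (f.coeff j) = n * h (f.coeff j) := by
          unfold h
          rw [← hn, mul_div_cancel₀ _ hn0.ne']
        rw [h3]
        exact mul_le_mul_of_nonneg_left (hpoly0 j) hn0.le
      rw [Finset.sum_const, Finset.card_univ, Fintype.card_fin, nsmul_eq_mul] at h2
      push_cast at h2
      exact h2
    have h2 := mul_le_mul_of_nonneg_left h1 hC
    have h3 : C * 1 ≤ C * ((d + 1) * n) := by
      refine mul_le_mul_of_nonneg_left ?_ hC
      have h4 : (0 : ℝ) ≤ d := Nat.cast_nonneg d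
      nlinarith
    have e1 : n * (C₁ * (1 + polyHeight f)) = C * ((d + 1) * n) +
        C * ((d + 1) * (n * polyHeight f)) := by
      rw [hC₁]
      ring
    rw [e1, mul_add]
    linarith
  have hCC : C₁ * (1 + polyHeight f) ≤ (C₁ + C₁ / ε) * (1 + polyHeight f) := by
    have h1 : 0 ≤ C₁ / ε * (1 + polyHeight f) := by positivity
    linarith
  have hCC' : C₁ / ε * (1 + polyHeight f) ≤ (C₁ + C₁ / ε) * (1 + polyHeight f) := by
    have h1 : 0 ≤ C₁ * (1 + polyHeight f) := by positivity
    linarith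
  rw [hxpq] at hsp hsq
  refine ⟨fun y₁ y₂ hyy hy₁T hy₂T hsy => ?_, fun ρ τ hρ0 hτ0 hρT hτT hsρ hdiv => ?_⟩
  · have hy₁0 : y₁ ≠ 0 := fun h0 => hy0 (by rw [hyy, h0, zero_mul])
    have hy₂0 : y₂ ≠ 0 := fun h0 => hy0 (by rw [hyy, h0, mul_zero])
    have hfy : ∀ v : HeightOneSpectrum (𝓞 K), Real.log (Pool.Agent.W180.OP.fv v y ^ 2) =
        2 * Real.log (Pool.Agent.W180.OP.fv v y₁) +
          Real.log (Pool.Agent.W180.OP.fv v (y₂ ^ 2)) := by
      intro v
      have h1 : Pool.Agent.W180.OP.fv v y₁ ≠ 0 := (Pool.Agent.W180.OP.fv v).ne_zero_iff.2 hy₁0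
      have h2 : Pool.Agent.W180.OP.fv v y₂ ≠ 0 := (Pool.Agent.W180.OP.fv v).ne_zero_iff.2 hy₂0
      rw [Real.log_pow, hyy, map_mul, map_pow, Real.log_mul h1 h2, Real.log_pow]
      push_cast
      ring
    have h2T : ∀ v ∉ T, Pool.Agent.W180.OP.fv v (y₂ ^ 2) ≤ 1 := by
      intro v hv
      rw [map_pow]
      exact pow_le_one₀ ((Pool.Agent.W180.OP.fv v).nonneg _) (hy₂T v hv)
    rw [hxpq] at hsy
    have key := (hmain f p q y₁ (y₂ ^ 2) hfd hsep.ne_zero hsep hq hfx hy₁0
      (pow_ne_zero 2 hy₂0) hy₁T h2T hsp hsq hsy (by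
        intro v hv
        rw [hmax v hv, hfv v, hfy v, Real.log_one, mul_zero, zero_sub]
        have h1 := Real.log_nonpos ((Pool.Agent.W180.OP.fv v).nonneg y₁) (hy₁T v hv)
        have h2 : (0 : ℝ) ≤ M := Nat.cast_nonneg M
        have h3 := mul_nonneg h2 (neg_nonneg.2 h1)
        push_cast
        linarith)).2 (by
        intro v hv
        rw [hmax v hv, hfv v, hfy v, Real.log_one, mul_zero, zero_sub])
    rw [← hxpq, npole_zero T x hxT, cnt_sq T y₂ hy₂0, hcnt, hh, zero_add] at key
    have hfirst : ((d : ℝ) / 2 - 1 - ε / 2) * h x ≤ counting T y₂ + C₁ * (1 + polyHeight f) := by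
      refine le_of_mul_le_mul_left ?_ (by positivity : (0 : ℝ) < 2 * n)
      have h1 : 0 ≤ n * (C₁ * (1 + polyHeight f)) := by positivity
      have e1 : 2 * n * (((d : ℝ) / 2 - 1 - ε / 2) * h x) = ((d : ℝ) - 2 - ε) * (n * h x) := by
        ring
      rw [e1]
      linarith
    have hhx : 0 ≤ h x := div_nonneg (zero_le_logHeight₁ _) (Nat.cast_nonneg _)
    have hεh : 0 ≤ ε / 2 * h x := by positivity
    have hsecond : ((d : ℝ) / 2 - 1 - ε) * h x ≤ counting T y₂ + C₁ * (1 + polyHeight f) := by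
      linarith
    refine ⟨by linarith, fun hle => ?_⟩
    have h1 : ε * h x ≤ C₁ * (1 + polyHeight f) := by linarith
    have h2 : h x ≤ C₁ / ε * (1 + polyHeight f) := by
      rw [div_mul_eq_mul_div, le_div_iff₀ hε]
      linarith
    linarith
  · rw [hxpq] at hsρ
    have key := (hmain f p q ρ τ hfd hsep.ne_zero hsep hq hfx hρ0 hτ0 hρT hτT hsp hsq hsρ (by
        intro v hv
        have h1 := hdiv v hv
        have e1 : ord v y = -Real.log (Pool.Agent.W180.OP.fv v y) := rfl
        have e2 : ord v ρ = -Real.log (Pool.Agent.W180.OP.fv v ρ) := rfl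
        have e3 : ord v τ = -Real.log (Pool.Agent.W180.OP.fv v τ) := rfl
        rw [e1, e2, e3] at h1
        rw [hmax v hv, hfv v, Real.log_one, mul_zero, zero_sub, Real.log_pow]
        have h2 := Real.log_nonpos ((Pool.Agent.W180.OP.fv v).nonneg ρ) (hρT v hv)
        push_cast
        linarith)).1
    rw [← hxpq, hcnt, hcnt, hh] at key
    have hfirst : ((d : ℝ) - 1 - ε) * h x ≤ counting T ρ + counting T τ +
        C₁ * (1 + polyHeight f) := by
      refine le_of_mul_le_mul_left ?_ hn0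
      have e1 : n * (((d : ℝ) - 1 - ε) * h x) = ((d : ℝ) - 1 - ε) * (n * h x) := by ring
      rw [e1]
      linarith
    linarith

end Pool.Agent.Results.MP_d88658_nt.ShortAbscissaShortFactor
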